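import Pool.Agent.C2.Stmts

/-!
# ZPL: positions and Laplacian sum
-/

namespace Pool.Agent.C2.H26

open Finset Pool.Agent.C2

/-- the condition in the kernel of the Laplacian -/
def KA {V E F : Type} [Field F] [Fintype E] [DecidableEq V] (s t : E → V) (b : E → F)
    (u : V → F) : Prop :=
  ∀ x, ∑ e, b e * ((if s e = x then u (t e) - u (s e) else 0) +
    (if t e = x then u (s e) - u (t e) else 0)) = 0

/-- the matrix -/
def MM {V E F : Type} [Field F] [DecidableEq V] (s t : E → V) (x0 x1 : V → F) (e : E)
    (y : V ⊕ V) : F :=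
  Sum.elim (fun w => (x0 (t e) - x0 (s e)) * ((if t e = w then 1 else 0) - (if s e = w then 1 else 0)))
    (fun w => -((x1 (t e) - x1 (s e)) * ((if t e = w then 1 else 0) - (if s e = w then 1 else 0)))) y

theorem zpl (h : KdwStmt) : ZplStmt := by
  intro F _ _ _ V E _ _ _ _ s t
  classical
  have hA : ∀ (b : E → F) (u : V → F) (w : V),
      ∑ e, b e * ((if s e = w then u (t e) - u (s e) else 0) +
        (if t e = w then u (s e) - u (t e) else 0)) =
      -∑ e, b e * ((u (t e) - u (s e)) * ((if t e = w then 1 else 0) - (if s e = w then 1 else 0))) := by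
    intro b u w
    rw [← Finset.sum_neg_distrib]
    refine Finset.sum_congr rfl fun e _ => ?_
    by_cases h1 : s e = w <;> by_cases h2 : t e = w <;> simp only [h1, h2, if_true, if_false] <;> ring
  have key : ∀ x0 x1 : V → F, (Fintype.card F : ℤ) ^ (2 * Fintype.card V) *
      ∑ b : E → F, wt b * (if (KA s t b x0 ∧ KA s t b x1) then (1 : ℤ) else 0) =
      (Fintype.card F : ℤ) ^ (Fintype.card E) *
        (Nat.card {z : (V → F) × (V → F) // ∀ e, (x0 (t e) - x0 (s e)) * (z.1 (t e) - z.1 (s e)) ≠
          (x1 (t e) - x1 (s e)) * (z.2 (t e) - z.2 (s e))} : ℤ) := by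
    intro x0 x1
    have h0 := h F E Empty (V ⊕ V) (MM s t x0 x1) (fun i _ => i.elim)
    rw [Fintype.card_sum, ← two_mul] at h0
    have hl : ∀ b : E → F, (Nat.card {x : Empty → F // ∀ y, ∑ n, b n * MM s t x0 x1 n y +
        ∑ i : Empty, x i * (i.elim : F) = 0} : ℤ) =
        (if (KA s t b x0 ∧ KA s t b x1) then (1 : ℤ) else 0) := by
      intro b
      have hiff : (∀ y, ∑ n, b n * MM s t x0 x1 n y = 0) ↔ (KA s t b x0 ∧ KA s t b x1) := by
        constructor
        · intro hy
          constructor
          · intro w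
            rw [hA]
            have := hy (Sum.inl w)
            simp only [MM, Sum.elim_inl] at this
            rw [this, neg_zero]
          · intro w
            rw [hA]
            have := hy (Sum.inr w)
            simp only [MM, Sum.elim_inr, mul_neg, Finset.sum_neg_distrib] at this
            exact this
        · rintro ⟨ha, hb⟩ y
          rcases y with w | w
          · have := ha w
            rw [hA, neg_eq_zero] at this
            simp only [MM, Sum.elim_inl]
            exact this
          · have := hb w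
            rw [hA] at this
            simp only [MM, Sum.elim_inr, mul_neg, Finset.sum_neg_distrib]
            exact this
      by_cases hk : (KA s t b x0 ∧ KA s t b x1)
      · rw [if_pos hk]
        have hu : Nat.card {x : Empty → F // ∀ y, ∑ n, b n * MM s t x0 x1 n y +
            ∑ i : Empty, x i * (i.elim : F) = 0} = 1 := by
          rw [Nat.card_eq_one_iff_unique]
          refine ⟨⟨fun a c => Subtype.ext (funext fun i => i.elim)⟩, ⟨⟨fun i => i.elim, ?_⟩⟩⟩
          intro y
          rw [hiff.mpr hk y]
          simp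
        rw [hu]; rfl
      · rw [if_neg hk]
        have hu : IsEmpty {x : Empty → F // ∀ y, ∑ n, b n * MM s t x0 x1 n y +
            ∑ i : Empty, x i * (i.elim : F) = 0} := by
          refine ⟨fun x => hk (hiff.mp fun y => ?_)⟩
          have := x.2 y
          simpa using this
        rw [Nat.card_of_isEmpty]; rfl
    have hr : Nat.card {z : V ⊕ V → F // (∀ i : Empty, ∑ y : V ⊕ V, (i.elim : F) * z y = 0) ∧
        ∀ n, ∑ y, MM s t x0 x1 n y * z y ≠ 0} =
        Nat.card {z : (V → F) × (V → F) // ∀ e, (x0 (t e) - x0 (s e)) * (z.1 (t e) - z.1 (s e)) ≠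
          (x1 (t e) - x1 (s e)) * (z.2 (t e) - z.2 (s e))} := by
      refine Nat.card_congr ((Equiv.sumArrowEquivProdArrow V V F).subtypeEquiv ?_)
      intro z
      have hs : ∀ e, ∑ y, MM s t x0 x1 e y * z y =
          (x0 (t e) - x0 (s e)) * (z (Sum.inl (t e)) - z (Sum.inl (s e))) -
          (x1 (t e) - x1 (s e)) * (z (Sum.inr (t e)) - z (Sum.inr (s e))) := by
        intro e
        rw [Fintype.sum_sum_type]
        simp only [MM, Sum.elim_inl, Sum.elim_inr]
        have h1 : ∀ (c : F) (g : V → F), ∑ w, c * ((if t e = w then 1 else 0) - (if s e = w then 1 else 0)) * g w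
            = c * (g (t e) - g (s e)) := by
          intro c g
          have : ∀ w, c * ((if t e = w then 1 else 0) - (if s e = w then 1 else 0)) * g w =
              (if t e = w then c * g w else 0) - (if s e = w then c * g w else 0) := by
            intro w
            by_cases h1 : t e = w <;> by_cases h2 : s e = w <;> simp [h1, h2]
          rw [Finset.sum_congr rfl fun w _ => this w, Finset.sum_sub_distrib,
            Finset.sum_ite_eq, Finset.sum_ite_eq, if_pos (mem_univ _), if_pos (mem_univ _)]
          ring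
        rw [h1 _ (fun w => z (Sum.inl w))]
        have h2 : ∑ w, -((x1 (t e) - x1 (s e)) * ((if t e = w then (1 : F) else 0) - (if s e = w then 1 else 0)))
            * z (Sum.inr w) = -((x1 (t e) - x1 (s e)) * (z (Sum.inr (t e)) - z (Sum.inr (s e)))) := by
          rw [← h1 _ (fun w => z (Sum.inr w)), ← Finset.sum_neg_distrib]
          refine Finset.sum_congr rfl fun w _ => ?_
          ring
        rw [h2]
        ring
      constructor
      · rintro ⟨-, h2⟩ e
        have := h2 e
        rw [hs, sub_ne_zero] at this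
        exact this
      · intro h2
        refine ⟨fun i => i.elim, fun e => ?_⟩
        rw [hs, sub_ne_zero]
        exact h2 e
    rw [hr] at h0
    rw [Finset.sum_congr rfl fun b _ => by rw [hl b]] at h0
    simpa using h0
  have hker : ∀ b : E → F, (kerG s t b : ℤ) = ∑ u : V → F, if KA s t b u then (1 : ℤ) else 0 := by
    intro b
    unfold kerG
    have h1 : Nat.card {u : V → F // ∀ x, ∑ e, b e * ((if s e = x then u (t e) - u (s e) else 0) +
        (if t e = x then u (s e) - u (t e) else 0)) = 0} = Nat.card {u : V → F // KA s t b u} := rfl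
    rw [h1, Nat.card_eq_fintype_card, Fintype.card_subtype, Finset.card_filter]
    push_cast
    rfl
  have hsq : ∀ b : E → F, (kerG s t b : ℤ) ^ 2 = ∑ x0 : V → F, ∑ x1 : V → F,
      if (KA s t b x0 ∧ KA s t b x1) then (1 : ℤ) else 0 := by
    intro b
    rw [sq, hker, Finset.sum_mul_sum]
    refine Finset.sum_congr rfl fun x0 _ => Finset.sum_congr rfl fun x1 _ => ?_
    by_cases h1 : KA s t b x0 <;> by_cases h2 : KA s t b x1 <;> simp [h1, h2]
  have hZP : (ZP F s t : ℤ) = ∑ x0 : V → F, ∑ x1 : V → F,
      (Nat.card {z : (V → F) × (V → F) // ∀ e, (x0 (t e) - x0 (s e)) * (z.1 (t e) - z.1 (s e)) ≠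
          (x1 (t e) - x1 (s e)) * (z.2 (t e) - z.2 (s e))} : ℤ) := by
    rw [← Fintype.sum_prod_type']
    unfold ZP
    rw [← Nat.cast_sum, ← Nat.card_sigma]
    congr 1
    refine Nat.card_congr ?_
    refine {
      toFun := fun x => ⟨(x.1 0, x.1 1), ⟨(x.1 3, x.1 2), fun e => x.2 e⟩⟩
      invFun := fun p => ⟨![p.1.1, p.1.2, p.2.1.2, p.2.1.1], fun e => p.2.2 e⟩
      left_inv := ?_
      right_inv := ?_ }
    · intro x
      apply Subtype.ext
      funext i
      fin_cases i <;> rfl
    · intro p
      rfl
  rw [hZP]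
  have hL : (Fintype.card F : ℤ) ^ (2 * Fintype.card V) * ∑ b : E → F, wt b * (kerG s t b : ℤ) ^ 2 =
      ∑ x0 : V → F, ∑ x1 : V → F, (Fintype.card F : ℤ) ^ (2 * Fintype.card V) *
      ∑ b : E → F, wt b * (if (KA s t b x0 ∧ KA s t b x1) then (1 : ℤ) else 0) := by
    simp_rw [hsq, Finset.mul_sum]
    rw [Finset.sum_comm]
    refine Finset.sum_congr rfl fun x0 _ => ?_
    rw [Finset.sum_comm]
  rw [hL, Finset.mul_sum]
  refine Finset.sum_congr rfl fun x0 _ => ?_
  rw [Finset.mul_sum]
  exact Finset.sum_congr rfl fun x1 _ => key x0 x1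

end Pool.Agent.C2.H26
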